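import Pool.Agent.Y703.QT8.A
import Pool.Agent.Y19.QT.Fac
import Pool.Agent.Y180.QT12b2b

/-!
# Polynomial growth of the `L`-functions of the quadratic twists

The functions `T.ell d` of the starting library (project QT) have at most polynomial growth in the strip
`1/4 ≤ Re s ≤ 3`: the ray of integration is turned by an angle which depends on the height. So the `L`-functions of
the twists have at most polynomial growth in the half plane `Re s > 3/4`, the central point being `1`.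
-/

set_option autoImplicit false

namespace Pool.Agent.Q190.QTw

open Complex MeasureTheory Filter Topology Set
open Pool.Agent.Y19.QT Pool.Agent.Y703.QT8 Pool.Agent.Y705.QT

variable {Q : ℕ} {lam : ℕ → ℝ}

theorem ell_grow (T : Twists Q lam) {d : ℤ} (hd : Squarefree d) : ∃ C : ℝ, 0 ≤ C ∧ ∀ s : ℂ, 1 / 4 ≤ s.re →
    s.re ≤ 3 → ‖T.ell d s‖ ≤ C * (1 + |s.im|) ^ 8 := by
  obtain ⟨c, hc, hg⟩ := gamma_low
  have hq := q_pos T hd
  have hpi := Real.pi_pos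
  have hpi3 := Real.pi_gt_three
  have hTc : 0 ≤ T.c := by linarith [T.one_le_c]
  set P := max 1 (2 * Real.pi / T.q d) with hP
  have hP1 : 1 ≤ P := le_max_left _ _
  have hP0 : 0 ≤ P := by linarith
  set q := T.q d with hq'
  set B0 := 2 * (T.c * ((2 * q) ^ 2 + (2 * q) ^ 3)) * (120 * (2 * q) ^ 5) with hB0
  have hB00 : 0 ≤ B0 := by positivity
  refine ⟨P ^ (4 : ℝ) * c⁻¹ * B0 * Real.exp (Real.pi / 4), by positivity, fun s hs1 hs2 => ?_⟩
  set t := |s.im| with ht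
  have ht0 : 0 ≤ t := abs_nonneg _
  set m := Real.pi / 4 / (1 + t) with hm
  have hm0 : 0 < m := by positivity
  have hm1 : m ≤ Real.pi / 4 := div_le_self (by positivity) (by linarith)
  set θ := Real.pi / 2 - m with hθ
  have h0 : 0 ≤ θ := by rw [hθ]; linarith
  have h1 : θ < Real.pi / 2 := by rw [hθ]; linarith
  have ha : |θ| < Real.pi / 2 := by rwa [abs_of_nonneg h0]
  have ha' : |(-θ)| < Real.pi / 2 := by rwa [abs_neg]
  set z := (x0 T d θ)⁻¹ with hz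
  have hx0 := x0_pos T hd ha
  have hz0 : 0 ≤ z := (inv_pos.2 hx0).le
  have hx : z ≤ 2 * q * (1 + t) := by
    have hcos : 1 / (2 * (1 + t)) ≤ Real.cos θ := by
      rw [hθ, Real.cos_pi_div_two_sub]
      have h2 := Real.mul_le_sin hm0.le (by linarith : m ≤ Real.pi / 2)
      have e : 2 / Real.pi * m = 1 / (2 * (1 + t)) := by
        rw [hm]
        field_simp
        ring
      linarith
    have hcos0 : 0 < Real.cos θ := lt_of_lt_of_le (by positivity) hcos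
    rw [hz]
    unfold x0
    rw [inv_div, div_le_iff₀ hcos0]
    calc T.q d = 2 * q * (1 + t) * (1 / (2 * (1 + t))) := by
          rw [← hq']
          field_simp
      _ ≤ _ := by gcongr
  have hBle : 2 * Kd T d θ * cB (Real.pi * x0 T d θ) 3 ≤ B0 * (1 + t) ^ 8 := by
    have e1 : Kd T d θ = T.c * (z ^ 2 + z ^ 3) := rfl
    have e2 : cB (Real.pi * x0 T d θ) 3 = 120 * (Real.pi⁻¹ * z) ^ 5 := by
      unfold cB
      rw [mul_inv, hz]
      norm_num [Nat.factorial]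
    have h3 : Real.pi⁻¹ * z ≤ z := mul_le_of_le_one_left hz0 (inv_le_one_of_one_le₀ (by linarith))
    have h4 : Real.pi⁻¹ * z ≤ 2 * q * (1 + t) := h3.trans hx
    have h5 : z ^ 2 + z ^ 3 ≤ ((2 * q) ^ 2 + (2 * q) ^ 3) * (1 + t) ^ 3 := by
      have h6 : z ^ 2 ≤ (2 * q) ^ 2 * (1 + t) ^ 3 := by
        calc z ^ 2 ≤ (2 * q * (1 + t)) ^ 2 := pow_le_pow_left₀ hz0 hx 2
          _ = (2 * q) ^ 2 * (1 + t) ^ 2 := by ring
          _ ≤ _ := by
            have : (1 + t) ^ 2 ≤ (1 + t) ^ 3 := pow_le_pow_right₀ (by linarith) (by norm_num)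
            gcongr
      have h7 : z ^ 3 ≤ (2 * q) ^ 3 * (1 + t) ^ 3 := by
        calc z ^ 3 ≤ (2 * q * (1 + t)) ^ 3 := pow_le_pow_left₀ hz0 hx 3
          _ = _ := by ring
      linarith
    have h8 : (Real.pi⁻¹ * z) ^ 5 ≤ (2 * q) ^ 5 * (1 + t) ^ 5 := by
      calc (Real.pi⁻¹ * z) ^ 5 ≤ (2 * q * (1 + t)) ^ 5 := pow_le_pow_left₀ (by positivity) h4 5
        _ = _ := by ring
    rw [e1, e2]
    calc 2 * (T.c * (z ^ 2 + z ^ 3)) * (120 * (Real.pi⁻¹ * z) ^ 5)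
        ≤ 2 * (T.c * (((2 * q) ^ 2 + (2 * q) ^ 3) * (1 + t) ^ 3)) * (120 * ((2 * q) ^ 5 * (1 + t) ^ 5)) := by
          gcongr
      _ = B0 * (1 + t) ^ 8 := by rw [hB0]; ring
  have hre : (s + 1 / 2).re = s.re + 1 / 2 := by simp
  have him : (s + 1 / 2).im = s.im := by simp
  have hM : ‖MM T d 0 (s + 1 / 2)‖ ≤ Real.exp (-(θ * t)) * (B0 * (1 + t) ^ 8) := by
    have h := mm_norm_abs T hd h0 h1 (s + 1 / 2)
    rw [him] at h
    refine h.trans ?_
    have hN : |(s + 1 / 2).re - 1| ≤ ((3 : ℕ) : ℝ) := by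
      rw [hre, abs_le]; constructor <;> push_cast <;> linarith
    have b1 := ((F_dec T hd ha).conv_norm 3 hN).2
    have b2 := ((F_dec T hd ha').conv_norm 3 hN).2
    rw [Kd_neg, x0_neg] at b2
    gcongr
    split_ifs
    · exact b1.trans hBle
    · exact b2.trans hBle
  have hG := hg (s + 1 / 2) (by rw [hre]; linarith) (by rw [hre]; linarith)
  rw [him] at hG
  have hG' : ‖Complex.Gamma (s + 1 / 2)‖⁻¹ ≤ c⁻¹ * Real.exp (Real.pi / 2 * t) := by
    have : c⁻¹ * Real.exp (Real.pi / 2 * t) = (c * Real.exp (-(Real.pi / 2 * t)))⁻¹ := by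
      rw [mul_inv, Real.exp_neg, inv_inv]
    rw [this]
    exact inv_anti₀ (by positivity) hG
  have hpow : ‖(2 * Real.pi / (T.q d : ℂ)) ^ (s + 1 / 2)‖ ≤ P ^ (4 : ℝ) := by
    rw [q_cast, Complex.norm_cpow_eq_rpow_re_of_pos (by positivity), hre]
    calc (2 * Real.pi / T.q d) ^ (s.re + 1 / 2) ≤ P ^ (s.re + 1 / 2) :=
          Real.rpow_le_rpow (by positivity) (le_max_right _ _) (by linarith)
      _ ≤ P ^ (4 : ℝ) := Real.rpow_le_rpow_of_exponent_le hP1 (by linarith)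
  rw [ell_eq, norm_mul, norm_mul, norm_inv]
  have hexp : Real.exp (Real.pi / 2 * t) * Real.exp (-(θ * t)) ≤ Real.exp (Real.pi / 4) := by
    rw [← Real.exp_add]
    apply Real.exp_le_exp.2
    have e : Real.pi / 2 * t + -(θ * t) = m * t := by rw [hθ]; ring
    rw [e, hm, div_mul_eq_mul_div, div_le_iff₀ (by positivity)]
    nlinarith
  calc ‖(2 * Real.pi / (T.q d : ℂ)) ^ (s + 1 / 2)‖ * ‖Complex.Gamma (s + 1 / 2)‖⁻¹ *
        ‖MM T d 0 (s + 1 / 2)‖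
      ≤ P ^ (4 : ℝ) * (c⁻¹ * Real.exp (Real.pi / 2 * t)) *
          (Real.exp (-(θ * t)) * (B0 * (1 + t) ^ 8)) := by
        gcongr
    _ = P ^ (4 : ℝ) * c⁻¹ * B0 * (Real.exp (Real.pi / 2 * t) * Real.exp (-(θ * t))) * (1 + t) ^ 8 := by
        ring
    _ ≤ P ^ (4 : ℝ) * c⁻¹ * B0 * Real.exp (Real.pi / 4) * (1 + t) ^ 8 := by
        gcongr

/-- boundedness to the right -/
theorem ell_right (T : Twists Q lam) {d : ℤ} (hd : Squarefree d) : ∃ C : ℝ, 0 ≤ C ∧ ∀ s : ℂ, 3 ≤ s.re →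
    ‖T.ell d s‖ ≤ C := by
  have hsum : Summable fun n : ℕ => T.c * ((n : ℝ) ^ 2)⁻¹ :=
    (Real.summable_nat_pow_inv.2 (by norm_num)).mul_left _
  have hTc : 0 ≤ T.c := by linarith [T.one_le_c]
  refine ⟨∑' n : ℕ, T.c * ((n : ℝ) ^ 2)⁻¹, tsum_nonneg fun n => by positivity, fun s hs => ?_⟩
  rw [ell_dir T hd (by linarith)]
  refine tsum_of_norm_bounded hsum.hasSum fun n => ?_
  rcases Nat.eq_zero_or_pos n with rfl | hn
  · have e : T.cf d 0 = 0 := cf_zero T d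
    rw [e]
    simp
  have hn' : (0 : ℝ) < n := by exact_mod_cast hn
  have hn1 : (1 : ℝ) ≤ n := by exact_mod_cast hn
  have h1 : |T.cf d n| ≤ T.c * n := by
    have h2 := bb_le T hd n
    unfold bb at h2
    rw [abs_mul, abs_of_nonneg (Real.sqrt_nonneg _)] at h2
    have h3 : (n : ℝ) ^ (3 / 2 : ℝ) = n * Real.sqrt n := by
      rw [Real.sqrt_eq_rpow, show (3 / 2 : ℝ) = 1 + 1 / 2 by norm_num, Real.rpow_add hn', Real.rpow_one]
    rw [h3, ← mul_assoc] at h2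
    exact le_of_mul_le_mul_right h2 (Real.sqrt_pos.2 hn')
  rw [norm_mul, Complex.norm_real, Real.norm_eq_abs, norm_natCast_cpow_of_pos hn, neg_re]
  have h4 : (n : ℝ) ^ (-s.re) ≤ (n : ℝ) ^ (-(3 : ℝ)) := Real.rpow_le_rpow_of_exponent_le hn1 (by linarith)
  calc |T.cf d n| * (n : ℝ) ^ (-s.re) ≤ (T.c * n) * (n : ℝ) ^ (-(3 : ℝ)) := by gcongr
    _ = T.c * ((n : ℝ) ^ 2)⁻¹ := by
      rw [Real.rpow_neg hn'.le, show (3 : ℝ) = ((3 : ℕ) : ℝ) by norm_num, Real.rpow_natCast]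
      field_simp

theorem pf_low (a b : ℤ) {p : ℕ} (hp : p.Prime) (hp2 : p ≠ 2) {s : ℂ} (hs : 3 / 4 ≤ s.re) :
    1 / 64 ≤ ‖pf a b s p‖ := by
  have hp0 : (p : ℂ) ≠ 0 := by exact_mod_cast hp.ne_zero
  have hp1 : (2 : ℝ) ≤ p := by exact_mod_cast hp.two_le
  have hp0' : (0 : ℝ) < p := by linarith
  have hsq : (0 : ℝ) < Real.sqrt p := Real.sqrt_pos.2 hp0'
  have hsq2 : (Real.sqrt p : ℂ) * (Real.sqrt p : ℂ) = p := by
    rw [← ofReal_mul, Real.mul_self_sqrt (by linarith)]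
    simp
  set y : ℂ := (Real.sqrt p : ℂ) * (p : ℂ) ^ (-s) with hy
  have hyn : ‖y‖ ≤ 7 / 8 := by
    rw [hy, norm_mul, norm_real, Real.norm_eq_abs, abs_of_pos hsq, norm_natCast_cpow_of_pos hp.pos,
      neg_re, Real.sqrt_eq_rpow, ← Real.rpow_add hp0']
    have h1 : (p : ℝ) ^ (1 / 2 + -s.re) ≤ (2 : ℝ) ^ (-(1 / 4) : ℝ) := by
      calc (p : ℝ) ^ (1 / 2 + -s.re) ≤ (p : ℝ) ^ (-(1 / 4) : ℝ) :=
            Real.rpow_le_rpow_of_exponent_le (by linarith) (by linarith)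
        _ ≤ (2 : ℝ) ^ (-(1 / 4) : ℝ) := Real.rpow_le_rpow_of_nonpos (by norm_num) hp1 (by norm_num)
    refine h1.trans ?_
    have h2 : ((2 : ℝ) ^ (-(1 / 4) : ℝ)) ^ 4 = 1 / 2 := by
      rw [← Real.rpow_natCast, ← Real.rpow_mul (by norm_num)]
      norm_num
    by_contra h3
    push Not at h3
    have h4 := pow_lt_pow_left₀ h3 (by norm_num) (by norm_num : (4 : ℕ) ≠ 0)
    rw [h2] at h4
    norm_num at h4
  have ht : |(ap a b p : ℝ) / Real.sqrt p| ≤ 2 := by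
    rw [abs_div, abs_of_pos hsq, div_le_iff₀ hsq]
    exact Pool.Agent.Y203.QTZ5.hasse a b hp hp2
  have h := quad_lb _ ht y (by linarith)
  have e : pf a b s p = 1 - (((ap a b p : ℝ) / Real.sqrt p : ℝ) : ℂ) * y + y ^ 2 := by
    unfold pf
    have e4 : (p : ℂ) ^ (1 - 2 * s) = p * ((p : ℂ) ^ (-s)) ^ 2 := by
      rw [← Complex.cpow_nat_mul, sub_eq_add_neg, Complex.cpow_add _ _ hp0, Complex.cpow_one]
      congr 2
      push_cast
      ring
    rw [e4, hy]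
    have hsc : (Real.sqrt p : ℂ) ≠ 0 := by exact_mod_cast hsq.ne'
    push_cast
    have e5 : (ap a b p : ℂ) / (Real.sqrt p : ℂ) * ((Real.sqrt p : ℂ) * (p : ℂ) ^ (-s)) =
        (ap a b p : ℂ) * (p : ℂ) ^ (-s) := by field_simp
    rw [e5, mul_pow, pow_two (Real.sqrt p : ℂ), hsq2]
  rw [e]
  refine le_trans ?_ h
  have h1 : 1 / 8 ≤ 1 - ‖y‖ := by linarith
  nlinarith

/-- **Growth.** The `L`-function of a quadratic twist has at most polynomial growth for `Re s > 3/4`. -/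
theorem F_grow {a b : ℤ} (hab : 4 * a ^ 3 + 27 * b ^ 2 ≠ 0) (hT : HasTwists a b) {d : ℤ} (hd : Squarefree d)
    {F : ℂ → ℂ} (hF : IsLFun (a * d ^ 2) (b * d ^ 3) F) :
    ∃ C : ℝ, 0 ≤ C ∧ ∀ s : ℂ, 3 / 4 < s.re → ‖F s‖ ≤ C * (1 + ‖s‖) ^ 8 := by
  obtain ⟨Q, lam, ⟨T⟩, hQ, hlam⟩ := hT
  obtain ⟨S, hS, hS2, hfac⟩ := Lq_fac a b hab T hQ hlam d hd F hF
  obtain ⟨C1, hC1, h1⟩ := ell_grow T hd
  obtain ⟨C2, hC2, h2⟩ := ell_right T hd
  have hTc : 0 ≤ T.c := by linarith [T.one_le_c]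
  refine ⟨64 ^ S.card * ((C1 + C2) * T.c), by positivity, fun s hs => ?_⟩
  set s' := s - 1 / 2 with hs'
  have e1 : s' + 1 / 2 = s := by rw [hs']; ring
  have hre : s'.re = s.re - 1 / 2 := by rw [hs']; simp
  have him : s'.im = s.im := by rw [hs']; simp
  have h3 := hfac s' (by rw [hre]; linarith)
  rw [e1] at h3
  have h4 : (1 / 64 : ℝ) ^ S.card ≤ ‖∏ p ∈ S, pf (a * d ^ 2) (b * d ^ 3) s p‖ := by
    rw [norm_prod]
    calc (1 / 64 : ℝ) ^ S.card = ∏ _p ∈ S, (1 / 64 : ℝ) := by rw [Finset.prod_const]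
      _ ≤ _ := Finset.prod_le_prod (fun _ _ => by norm_num) fun p hp =>
          pf_low _ _ (Nat.prime_of_mem_primeFactors (hS hp)) (hS2 p hp) hs.le
  have h5 : ‖T.Lq d s'‖ ≤ (C1 + C2) * (1 + ‖s‖) ^ 8 * T.c := by
    have e : T.Lq d s' = T.ell d s' * Pool.Agent.Y180.QT12b2.Ep T d s' := rfl
    rw [e, norm_mul]
    have h6 := Pool.Agent.Y180.QT12b2.Ep_bound T hd (s := s') (by rw [hre]; linarith)
    have h7 : ‖T.ell d s'‖ ≤ (C1 + C2) * (1 + ‖s‖) ^ 8 := by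
      have h8 : (1 : ℝ) ≤ (1 + ‖s‖) ^ 8 := one_le_pow₀ (by linarith [norm_nonneg s])
      rcases le_total s'.re 3 with h9 | h9
      · have h10 := h1 s' (by rw [hre]; linarith) h9
        rw [him] at h10
        have h11 : (1 + |s.im|) ^ 8 ≤ (1 + ‖s‖) ^ 8 :=
          pow_le_pow_left₀ (by positivity) (by linarith [abs_im_le_norm s]) 8
        calc _ ≤ C1 * (1 + |s.im|) ^ 8 := h10
          _ ≤ C1 * (1 + ‖s‖) ^ 8 := by gcongr
          _ ≤ _ := by nlinarith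
      · have h10 := h2 s' h9
        nlinarith
    exact mul_le_mul h7 h6 (norm_nonneg _) (by positivity)
  rw [h3, norm_mul] at h5
  have h12 : ‖F s‖ * (1 / 64 : ℝ) ^ S.card ≤ (C1 + C2) * (1 + ‖s‖) ^ 8 * T.c :=
    (mul_le_mul_of_nonneg_left h4 (norm_nonneg _)).trans h5
  have h13 : ((1 / 64 : ℝ) ^ S.card) * 64 ^ S.card = 1 := by
    rw [← mul_pow]; norm_num
  calc ‖F s‖ = ‖F s‖ * ((1 / 64 : ℝ) ^ S.card) * 64 ^ S.card := by rw [mul_assoc, h13, mul_one]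
    _ ≤ ((C1 + C2) * (1 + ‖s‖) ^ 8 * T.c) * 64 ^ S.card := by gcongr
    _ = _ := by ring

end Pool.Agent.Q190.QTw
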