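import Mathlib.NumberTheory.Padics.HeightOneSpectrum
import Pool.Agent.Q190.QTw.Grow
import Pool.Agent.Q190.RV.Quad
import Pool.Agent.Q190.RV.Many

/-!
# Quadratic twists: one Euler product over the places of `ℚ` for a finite set of twists
-/

set_option autoImplicit false

namespace Pool.Agent.Q190.QTw

open Filter Topology Set Complex NumberField IsDedekindDomain Rat.HeightOneSpectrum
open Pool.Agent.Y19.QT Pool.Agent.Y705.QT
open Pool.Agent.Q18.P (norm upTo)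
open Pool.Agent.Q190.RV.Quad (Bound Euler)

/-- the finite places of `ℚ` -/
abbrev Place := HeightOneSpectrum (𝓞 ℚ)

theorem norm_eq (v : Place) : norm v = natGenerator v := by
  have h1 := span_natGenerator v
  have e : 𝓞 ℚ ⧸ v.asIdeal ≃+* ZMod (natGenerator v) :=
    (Ideal.quotientEquiv v.asIdeal (Ideal.span {(natGenerator v : ℤ)})
    (Rat.IsIntegralClosure.intEquiv (𝓞 ℚ)) h1).trans (Int.quotientSpanNatEquivZMod _)
  unfold Pool.Agent.Q18.P.norm
  rw [Ideal.absNorm_apply, Submodule.cardQuot_apply, Nat.card_congr e.toEquiv, Nat.card_zmod]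

theorem norm_prime (v : Place) : (norm v).Prime := by
  rw [norm_eq]
  exact prime_natGenerator v

theorem norm_symm (p : Nat.Primes) : norm ((primesEquiv (R := 𝓞 ℚ)).symm p) = p := by
  rw [norm_eq]
  have h : primesEquiv (R := 𝓞 ℚ) ((primesEquiv (R := 𝓞 ℚ)).symm p) = p := Equiv.apply_symm_apply _ _
  exact congrArg Subtype.val h

theorem norm_inj {v w : Place} (h : norm v = norm w) : v = w := by
  apply (primesEquiv (R := 𝓞 ℚ)).injective
  apply Subtype.ext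
  rw [norm_eq, norm_eq] at h
  exact h

section conv

variable {S : Finset Place} {G : ℕ → Prop} (hG : ∀ p, G p → p.Prime) (hS : ∀ v, v ∉ S ↔ G (norm v))

/-- the places outside of `S` are the primes with `G` -/
noncomputable def ev : {v : Place // v ∉ S} ≃ {p : ℕ // G p} where
  toFun v := ⟨norm v.1, (hS v.1).1 v.2⟩
  invFun p := ⟨(primesEquiv (R := 𝓞 ℚ)).symm ⟨p.1, hG p.1 p.2⟩, (hS _).2 (by rw [norm_symm]; exact p.2)⟩
  left_inv v := Subtype.ext (norm_inj (norm_symm _))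
  right_inv p := Subtype.ext (norm_symm _)

include hG hS in
theorem hasProd_iff [DecidablePred G] (f : ℕ → ℂ) (x : ℂ) :
    HasProd (fun v : {v : Place // v ∉ S} => f (norm v.1)) x ↔ HasProd (fun p : ℕ => if G p then f p else 1) x := by
  have h1 : HasProd (fun p : {p : ℕ // G p} => f p.1) x ↔ HasProd (fun p : ℕ => if G p then f p else 1) x := by
    have h2 : Function.mulSupport (fun p : ℕ => if G p then f p else 1) ⊆ {p | G p} := by
      intro p hp
      by_contra h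
      exact hp (if_neg h)
    rw [← hasProd_subtype_iff_of_mulSupport_subset h2]
    have e : (fun p : {p : ℕ // G p} => f p.1) =
        (fun p : ℕ => if G p then f p else 1) ∘ (Subtype.val : {p | G p} → ℕ) := by
      funext p
      exact (if_pos p.2).symm
    rw [e]
    rfl
  rw [← h1]
  exact (ev hG hS).hasProd_iff (f := fun p : {p : ℕ // G p} => f p.1)

include hG hS in
theorem finprod_eq [DecidablePred G] (g : ℕ → ℝ) (y : ℝ) :
    ∏ᶠ v ∈ upTo S y, g (norm v) = ∏ p ∈ (Finset.range (⌊y⌋₊ + 1)).filter G, g p := by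
  rw [← finprod_mem_coe_finset]
  refine finprod_mem_eq_of_bijOn norm ⟨?_, ?_, ?_⟩ fun v _ => rfl
  · rintro v ⟨h1, h2⟩
    rw [Finset.mem_coe, Finset.mem_filter, Finset.mem_range, Nat.lt_succ_iff,
      Nat.le_floor_iff' (norm_prime v).ne_zero]
    exact ⟨h2, (hS v).1 h1⟩
  · intro v _ w _ h
    exact norm_inj h
  · intro p hp
    rw [Finset.mem_coe, Finset.mem_filter, Finset.mem_range, Nat.lt_succ_iff] at hp
    have hpp := hG p hp.2
    rw [Nat.le_floor_iff' hpp.ne_zero] at hp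
    refine ⟨(primesEquiv (R := 𝓞 ℚ)).symm ⟨p, hpp⟩, ⟨?_, ?_⟩, norm_symm _⟩
    · rw [hS, norm_symm]
      exact hp.2
    · rw [norm_symm]
      exact hp.1

end conv

/-- the primes which divide neither `2 (4a³ + 27b²)` nor a member of `D` -/
def Good (a b : ℤ) (D : Finset ℤ) (p : ℕ) : Prop :=
  p.Prime ∧ ¬ (p : ℤ) ∣ 2 * (4 * a ^ 3 + 27 * b ^ 2) ∧ ∀ d ∈ D, ¬ (p : ℤ) ∣ d

/-- `2 (4a³ + 27b²) ∏ d` -/
def bad (a b : ℤ) (D : Finset ℤ) : ℤ := 2 * (4 * a ^ 3 + 27 * b ^ 2) * ∏ d ∈ D, d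

variable {a b : ℤ} {D : Finset ℤ}

theorem good_iff {p : ℕ} : Good a b D p ↔ p.Prime ∧ ¬ (p : ℤ) ∣ bad a b D := by
  constructor
  · rintro ⟨h1, h2, h3⟩
    have hp := Nat.prime_iff_prime_int.1 h1
    refine ⟨h1, fun h => ?_⟩
    rcases hp.dvd_mul.1 h with h4 | h4
    · exact h2 h4
    · obtain ⟨d, hd, h5⟩ := (Prime.dvd_finsetProd_iff hp _).1 h4
      exact h3 d hd h5
  · rintro ⟨h1, h2⟩
    exact ⟨h1, fun h => h2 (dvd_mul_of_dvd_left h _),
      fun d hd h => h2 (dvd_mul_of_dvd_right (h.trans (Finset.dvd_prod_of_mem _ hd)) _)⟩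

theorem bad_ne (hab : 4 * a ^ 3 + 27 * b ^ 2 ≠ 0) (hD : ∀ d ∈ D, Squarefree d) : bad a b D ≠ 0 :=
  mul_ne_zero (mul_ne_zero two_ne_zero hab) (Finset.prod_ne_zero_iff.2 fun d hd => (hD d hd).ne_zero)

theorem exists_S (hab : 4 * a ^ 3 + 27 * b ^ 2 ≠ 0) (hD : ∀ d ∈ D, Squarefree d) :
    ∃ S : Finset Place, ∀ v, v ∉ S ↔ Good a b D (norm v) := by
  have hM : (bad a b D).natAbs ≠ 0 := Int.natAbs_ne_zero.2 (bad_ne hab hD)
  have hfin : {v : Place | ¬ Good a b D (norm v)}.Finite := by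
    refine Set.Finite.of_finite_image (f := fun v : Place => norm v)
      (((bad a b D).natAbs.primeFactors.finite_toSet).subset ?_) (fun v _ w _ h => norm_inj h)
    rintro _ ⟨v, hv, rfl⟩
    rw [Finset.mem_coe, Nat.mem_primeFactors]
    refine ⟨norm_prime v, ?_, hM⟩
    by_contra hnd
    refine hv (good_iff.2 ⟨norm_prime v, fun h => hnd ?_⟩)
    exact Int.natCast_dvd.1 h
  exact ⟨hfin.toFinset, fun v => by simp⟩

/-- the primes of good reduction of `E_d` which are not good for `D` -/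
noncomputable def extra (a b : ℤ) (D : Finset ℤ) (d : ℤ) : Finset ℕ :=
  (bad a b D).natAbs.primeFactors.filter fun p => ¬ (p : ℤ) ∣ 2 * (-4 * (a * d ^ 2) ^ 3 - 27 * (b * d ^ 3) ^ 2)

/-- the additional factors -/
noncomputable def corr (a b : ℤ) (D : Finset ℤ) (d : ℤ) (s : ℂ) : ℂ :=
  ∏ p ∈ extra a b D d, pf (a * d ^ 2) (b * d ^ 3) s p

theorem extra_prime {d : ℤ} {p : ℕ} (hp : p ∈ extra a b D d) : p.Prime :=
  Nat.prime_of_mem_primeFactors (Finset.mem_filter.1 hp).1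

theorem extra_two {d : ℤ} {p : ℕ} (hp : p ∈ extra a b D d) : p ≠ 2 := by
  rintro rfl
  exact (Finset.mem_filter.1 hp).2 (dvd_mul_right _ _)

theorem corr_ne {d : ℤ} {s : ℂ} (hs : 3 / 4 ≤ s.re) : corr a b D d s ≠ 0 := by
  unfold corr
  refine Finset.prod_ne_zero_iff.2 fun p hp h => ?_
  have h1 := pf_low (a * d ^ 2) (b * d ^ 3) (extra_prime hp) (extra_two hp) hs
  rw [h, norm_zero] at h1
  norm_num at h1

theorem corr_diff {d : ℤ} : Differentiable ℂ (corr a b D d) := by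
  unfold corr
  exact Differentiable.fun_finsetProd fun p hp => pf_diff _ _ (extra_prime hp)

theorem pf_up (a b : ℤ) {p : ℕ} (hp : p.Prime) {s : ℂ} (hs : 1 / 2 ≤ s.re) : ‖pf a b s p‖ ≤ 2 + |(ap a b p : ℝ)| := by
  have hp1 : (1 : ℝ) ≤ p := by exact_mod_cast hp.one_lt.le
  have h1 : ‖(p : ℂ) ^ (-s)‖ ≤ 1 := by
    rw [norm_natCast_cpow_of_pos hp.pos, neg_re]
    exact Real.rpow_le_one_of_one_le_of_nonpos hp1 (by linarith)
  have h2 : ‖(p : ℂ) ^ (1 - 2 * s)‖ ≤ 1 := by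
    rw [norm_natCast_cpow_of_pos hp.pos]
    refine Real.rpow_le_one_of_one_le_of_nonpos hp1 ?_
    simp
    linarith
  unfold pf
  have h3 : ‖((ap a b p : ℤ) : ℂ)‖ = |(ap a b p : ℝ)| := by
    rw [← Complex.ofReal_intCast, Complex.norm_real, Real.norm_eq_abs]
  calc ‖1 - (ap a b p : ℂ) * (p : ℂ) ^ (-s) + (p : ℂ) ^ (1 - 2 * s)‖
      ≤ ‖(1 : ℂ)‖ + ‖(ap a b p : ℂ) * (p : ℂ) ^ (-s)‖ + ‖(p : ℂ) ^ (1 - 2 * s)‖ :=
        (norm_add_le _ _).trans (add_le_add_left (norm_sub_le _ _) _)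
    _ ≤ 1 + |(ap a b p : ℝ)| * 1 + 1 := by
        rw [norm_mul, norm_one, h3]
        gcongr
    _ = _ := by ring

theorem corr_up {d : ℤ} {s : ℂ} (hs : 1 / 2 ≤ s.re) :
    ‖corr a b D d s‖ ≤ ∏ p ∈ extra a b D d, (2 + |(ap (a * d ^ 2) (b * d ^ 3) p : ℝ)|) := by
  unfold corr
  rw [norm_prod]
  exact Finset.prod_le_prod (fun p _ => norm_nonneg _) fun p hp => pf_up _ _ (extra_prime hp) hs

theorem disc_eq (a b d : ℤ) : 2 * (-4 * (a * d ^ 2) ^ 3 - 27 * (b * d ^ 3) ^ 2) =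
    -(2 * (4 * a ^ 3 + 27 * b ^ 2)) * d ^ 6 := by ring

open Classical in
/-- the Euler product over the good primes -/
theorem euler_good (hab : 4 * a ^ 3 + 27 * b ^ 2 ≠ 0) (hD : ∀ d ∈ D, Squarefree d) {d : ℤ} (hd : d ∈ D) {F : ℂ → ℂ}
    (hF : IsLFun (a * d ^ 2) (b * d ^ 3) F) {s : ℂ} (hs : 3 / 2 < s.re) :
    HasProd (fun p : ℕ => if Good a b D p then (pf (a * d ^ 2) (b * d ^ 3) s p)⁻¹ else 1)
      (F s * corr a b D d s) := by
  have h1 := hF.2 s hs
  have h2 : HasProd (fun p => if p ∈ extra a b D d then pf (a * d ^ 2) (b * d ^ 3) s p else 1) (corr a b D d s) := by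
    have h4 : HasProd (fun p => if p ∈ extra a b D d then pf (a * d ^ 2) (b * d ^ 3) s p else 1)
        (∏ p ∈ extra a b D d, if p ∈ extra a b D d then pf (a * d ^ 2) (b * d ^ 3) s p else 1) :=
      hasProd_prod_of_ne_finset_one (fun p hp => if_neg hp)
    rwa [Finset.prod_congr rfl fun p hp => if_pos hp] at h4
  convert h1.mul h2 using 1
  funext p
  have hM : (bad a b D).natAbs ≠ 0 := Int.natAbs_ne_zero.2 (bad_ne hab hD)
  have hpf : (1 - ((p : ℂ) - (Nat.card {q : ZMod p × ZMod p //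
            q.2 ^ 2 = q.1 ^ 3 + ((a * d ^ 2 : ℤ) : ZMod p) * q.1 + ((b * d ^ 3 : ℤ) : ZMod p)} : ℂ))
            * (p : ℂ) ^ (-s) + (p : ℂ) ^ (1 - 2 * s))⁻¹ = (pf (a * d ^ 2) (b * d ^ 3) s p)⁻¹ := by
    unfold pf ap
    push_cast
    rfl
  rw [hpf]
  by_cases hp : p ∈ extra a b D d
  · obtain ⟨h3, h4⟩ := Finset.mem_filter.1 hp
    have hpp := Nat.prime_of_mem_primeFactors h3
    have h5 : ¬ Good a b D p := fun h => (good_iff.1 h).2 (Int.natCast_dvd.2 (Nat.dvd_of_mem_primeFactors h3))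
    have h6 : pf (a * d ^ 2) (b * d ^ 3) s p ≠ 0 := by
      intro h
      have h7 := pf_low (a * d ^ 2) (b * d ^ 3) hpp (extra_two hp) (s := s) (by linarith)
      rw [h, norm_zero] at h7
      norm_num at h7
    rw [if_neg h5, if_pos ⟨hpp, h4⟩, if_pos hp, inv_mul_cancel₀ h6]
  · rw [if_neg hp, mul_one]
    refine if_congr ?_ rfl rfl
    constructor
    · intro h
      refine ⟨h.1, fun h3 => ?_⟩
      rw [disc_eq] at h3
      have hpi := Nat.prime_iff_prime_int.1 h.1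
      rcases hpi.dvd_mul.1 h3 with h4 | h4
      · exact h.2.1 ((dvd_neg).1 h4)
      · exact h.2.2 d hd (hpi.dvd_of_dvd_pow h4)
    · rintro ⟨h3, h4⟩
      refine good_iff.2 ⟨h3, fun h5 => hp ?_⟩
      exact Finset.mem_filter.2 ⟨Nat.mem_primeFactors.2 ⟨h3, Int.natCast_dvd.1 h5, hM⟩, h4⟩

/-- the local data of the twist by `d` -/
noncomputable def tr (a b d : ℤ) (v : Place) : ℝ := ap (a * d ^ 2) (b * d ^ 3) (norm v)

theorem bound {S : Finset Place} (hS : ∀ v, v ∉ S ↔ Good a b D (norm v)) (d : ℤ) : Bound S (tr a b d) := by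
  intro v hv
  have h1 := (hS v).1 hv
  have h2 : norm v ≠ 2 := by
    intro h
    apply h1.2.1
    rw [h]
    exact dvd_mul_right _ _
  exact Pool.Agent.Y203.QTZ5.hasse _ _ (norm_prime v) h2

theorem euler (hab : 4 * a ^ 3 + 27 * b ^ 2 ≠ 0) (hD : ∀ d ∈ D, Squarefree d) {S : Finset Place}
    (hS : ∀ v, v ∉ S ↔ Good a b D (norm v)) {d : ℤ} (hd : d ∈ D) {F : ℂ → ℂ}
    (hF : IsLFun (a * d ^ 2) (b * d ^ 3) F) : Euler S (tr a b d) (fun s => F s * corr a b D d s) := by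
  classical
  intro s hs
  have h1 := (hasProd_iff (fun p hp => hp.1) hS (fun p => (pf (a * d ^ 2) (b * d ^ 3) s p)⁻¹) _).2
    (euler_good hab hD hd hF hs)
  refine h1.congr_fun fun v => ?_
  unfold pf tr
  push_cast
  rfl

theorem holo (hab : 4 * a ^ 3 + 27 * b ^ 2 ≠ 0) (hT : HasTwists a b) {d : ℤ} (hd : Squarefree d) {F : ℂ → ℂ}
    (hF : IsLFun (a * d ^ 2) (b * d ^ 3) F) :
    ∃ (η C : ℝ) (k : ℕ), 0 < η ∧ ∀ s : ℂ, 1 - η < s.re →
      DifferentiableAt ℂ (fun s => F s * corr a b D d s) s ∧ ‖F s * corr a b D d s‖ ≤ C * (1 + ‖s‖) ^ k := by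
  obtain ⟨C, hC, h1⟩ := F_grow hab hT hd hF
  have hP : 0 ≤ ∏ p ∈ extra a b D d, (2 + |(ap (a * d ^ 2) (b * d ^ 3) p : ℝ)|) :=
    Finset.prod_nonneg fun p _ => by positivity
  refine ⟨1 / 4, C * ∏ p ∈ extra a b D d, (2 + |(ap (a * d ^ 2) (b * d ^ 3) p : ℝ)|), 8, by norm_num,
    fun s hs => ⟨(hF.1 s).mul (corr_diff s), ?_⟩⟩
  have hs' : 3 / 4 < s.re := by linarith
  rw [norm_mul]
  calc ‖F s‖ * ‖corr a b D d s‖ ≤ (C * (1 + ‖s‖) ^ 8) * ∏ p ∈ extra a b D d, (2 + |(ap (a * d ^ 2) (b * d ^ 3) p : ℝ)|) :=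
        mul_le_mul (h1 s hs') (corr_up (by linarith)) (norm_nonneg _) (by positivity)
    _ = _ := by ring

theorem order_corr {d : ℤ} {F : ℂ → ℂ} (hF : Differentiable ℂ F) :
    analyticOrderAt (fun s => F s * corr a b D d s) 1 = analyticOrderAt F 1 := by
  have h1 : AnalyticAt ℂ F 1 := hF.analyticAt 1
  have h2 : AnalyticAt ℂ (corr a b D d) 1 := corr_diff.analyticAt 1
  have h3 : analyticOrderAt (corr a b D d) 1 = 0 :=
    h2.analyticOrderAt_eq_zero.2 (corr_ne (by norm_num))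
  have h4 := analyticOrderAt_mul h1 h2
  rw [h3, add_zero] at h4
  exact h4

end Pool.Agent.Q190.QTw
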