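import Pool.Agent.Y19.QT.Laws

/-!
# Counting twists
-/

set_option autoImplicit false

namespace Pool.Agent.Q190.QTw

open Finset Filter Topology
open Pool.Agent.Y19.QT (sqf mem_sqf)

/-- a proof of helper28 (`Pool.Agent.Q28.BP.sqf_card`) -/
theorem sqf_card (T : ℕ) : (T : ℝ) ≤ 4 * (sqf T).card := by
  classical
  rcases Nat.eq_zero_or_pos T with rfl | hT
  · simp
  have h1 : ((Ioc 0 T).filter fun n : ℕ => ¬ Squarefree n) ⊆
      (Ioc 1 T).biUnion fun k => (Ioc 0 T).filter fun n => k ^ 2 ∣ n := by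
    intro n hn
    rw [mem_filter, mem_Ioc] at hn
    obtain ⟨⟨h1, h2⟩, h3⟩ := hn
    rw [Nat.squarefree_iff_prime_squarefree] at h3
    push Not at h3
    obtain ⟨p, hp, h4⟩ := h3
    rw [mem_biUnion]
    have h5 : p * p ≤ n := Nat.le_of_dvd h1 h4
    refine ⟨p, mem_Ioc.2 ⟨hp.one_lt, ?_⟩, mem_filter.2 ⟨mem_Ioc.2 ⟨h1, h2⟩, by rwa [sq]⟩⟩
    nlinarith [hp.one_lt]
  have h2 : (((Ioc 0 T).filter fun n : ℕ => ¬ Squarefree n).card : ℝ) ≤
      ∑ k ∈ Ioc 1 T, (((Ioc 0 T).filter fun n => k ^ 2 ∣ n).card : ℝ) := by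
    exact_mod_cast (card_le_card h1).trans card_biUnion_le
  have h3 : ∑ k ∈ Ioc 1 T, (((Ioc 0 T).filter fun n => k ^ 2 ∣ n).card : ℝ) ≤
      T * ∑ k ∈ Ioc 1 T, ((k : ℝ) ^ 2)⁻¹ := by
    rw [mul_sum]
    refine sum_le_sum fun k hk => ?_
    rw [Nat.Ioc_filter_dvd_card_eq_div]
    have := @Nat.cast_div_le ℝ _ _ _ T (k ^ 2)
    push_cast at this
    rw [← div_eq_mul_inv]
    exact this
  have h4 : ∑ k ∈ Ioc 1 T, ((k : ℝ) ^ 2)⁻¹ ≤ 3 / 4 := by
    rcases Nat.lt_or_ge T 2 with h | h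
    · have : T = 1 := by omega
      subst this
      simp
      norm_num
    · have h5 := sum_Ioc_inv_sq_le_sub (α := ℝ) (k := 2) (n := T) (by norm_num) h
      have e : Ioc 1 T = insert 2 (Ioc 2 T) := by
        ext k
        rw [mem_insert, mem_Ioc, mem_Ioc]
        omega
      rw [e, sum_insert (by simp)]
      have h6 : (0 : ℝ) ≤ (T : ℝ)⁻¹ := by positivity
      push_cast at h5 ⊢
      norm_num at h5 ⊢
      linarith
  have h5 := card_filter_add_card_filter_not (s := Ioc 0 T) (p := fun n : ℕ => Squarefree n)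
  rw [Nat.card_Ioc, Nat.sub_zero] at h5
  have h6 : (((Ioc 0 T).filter fun n : ℕ => Squarefree n).card : ℝ) +
      (((Ioc 0 T).filter fun n : ℕ => ¬ Squarefree n).card : ℝ) = T := by exact_mod_cast h5
  have h7 : ((Ioc 0 T).filter fun n : ℕ => Squarefree n).card ≤ (sqf T).card := by
    refine card_le_card_of_injOn (fun n => (n : ℤ)) ?_ ?_
    · intro n hn
      rw [mem_coe, mem_filter, mem_Ioc] at hn
      rw [mem_coe, mem_sqf]
      obtain ⟨⟨h8, h9⟩, h10⟩ := hn
      refine ⟨?_, Int.squarefree_natCast.2 h10⟩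
      change |((n : ℕ) : ℤ)| ≤ (T : ℤ)
      rw [abs_of_nonneg (by positivity)]
      exact_mod_cast h9
    · intro a _ b _ h
      exact Int.natCast_inj.1 h
  have h8 : (((Ioc 0 T).filter fun n : ℕ => Squarefree n).card : ℝ) ≤ (sqf T).card := by exact_mod_cast h7
  have hT0 : (0 : ℝ) < T := by exact_mod_cast hT
  nlinarith

open Classical in
/-- the squarefree integers `d` with `|d| < X` -/
noncomputable def twists (X : ℝ) : Finset ℤ :=
  (Finset.Icc (-⌈X⌉) ⌈X⌉).filter fun d => Squarefree d ∧ |(d : ℝ)| < X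

theorem mem_twists {X : ℝ} {d : ℤ} : d ∈ twists X ↔ Squarefree d ∧ |(d : ℝ)| < X := by
  classical
  unfold twists
  rw [Finset.mem_filter, Finset.mem_Icc]
  constructor
  · exact fun h => h.2
  · intro h
    refine ⟨?_, h⟩
    obtain ⟨h1, h2⟩ := abs_lt.1 h.2
    have h3 := Int.le_ceil X
    constructor
    · have h4 : ((-⌈X⌉ : ℤ) : ℝ) ≤ d := by
        push_cast
        linarith
      exact_mod_cast h4
    · have h4 : (d : ℝ) ≤ (⌈X⌉ : ℤ) := by linarith
      exact_mod_cast h4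

theorem twists_eq {X : ℝ} (hX : 0 < X) : twists X = sqf (⌈X⌉₊ - 1) := by
  ext d
  rw [mem_twists, mem_sqf, and_comm]
  refine and_congr_left fun _ => ?_
  have h0 : 0 < ⌈X⌉₊ := Nat.ceil_pos.2 hX
  have h1 : |(d : ℝ)| = (d.natAbs : ℝ) := by
    rw [Nat.cast_natAbs, Int.cast_abs]
  rw [h1, ← Nat.lt_ceil]
  rw [Int.abs_eq_natAbs]
  omega

theorem twists_card {X : ℝ} (hX : 2 ≤ X) : X / 8 ≤ ((twists X).card : ℝ) := by
  rw [twists_eq (by linarith)]
  have h1 := sqf_card (⌈X⌉₊ - 1)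
  have h0 : 0 < ⌈X⌉₊ := Nat.ceil_pos.2 (by linarith)
  have h2 : X - 1 ≤ ((⌈X⌉₊ - 1 : ℕ) : ℝ) := by
    rw [Nat.cast_sub h0]
    have := Nat.le_ceil X
    push_cast
    linarith
  linarith

theorem sqrt_small (C : ℝ) {ε : ℝ} (hε : 0 < ε) : ∀ᶠ X : ℝ in atTop, C * √X ≤ ε * (twists X).card := by
  filter_upwards [eventually_ge_atTop 2, Real.tendsto_sqrt_atTop.eventually_ge_atTop (8 * C / ε)] with X h1 h2
  have h3 := twists_card h1
  have h4 : 0 ≤ √X := Real.sqrt_nonneg X
  have h5 : √X * √X = X := Real.mul_self_sqrt (by linarith)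
  rw [div_le_iff₀ hε] at h2
  calc C * √X ≤ (√X * ε / 8) * √X := by
        apply mul_le_mul_of_nonneg_right _ h4
        linarith
    _ = ε * ((√X * √X) / 8) := by ring
    _ = ε * (X / 8) := by rw [h5]
    _ ≤ ε * (twists X).card := by gcongr

/-- at least half of the twists, up to `C √X`, have even order and at least half have odd order -/
def Parity (r : ℤ → ℕ) (C : ℝ) : Prop := ∀ X : ℝ, 4 ≤ X → ∀ e < 2,
  ((twists X).card : ℝ) / 2 - C * √X ≤ (((twists X).filter fun d => r d % 2 = e).card : ℝ)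

theorem count (D : Finset ℤ) (r : ℤ → ℕ) {E θ : ℝ}
    (h : ∀ e < 2, (D.card : ℝ) / 2 - E ≤ ((D.filter fun d => r d % 2 = e).card : ℝ))
    (hθ : ((∑ d ∈ D, r d : ℕ) : ℝ) ≤ θ) :
    ((D.filter fun d => 2 ≤ r d).card : ℝ) ≤ (θ - D.card / 2 + E) / 2 ∧
    (D.card : ℝ) / 2 - E ≤ ((∑ d ∈ D, r d : ℕ) : ℝ) ∧
    ∀ k < 2, |((D.filter fun d => r d = k).card : ℝ) - D.card / 2| ≤ E + (θ - D.card / 2 + E) / 2 := by
  have h1 : (D.filter fun d => r d % 2 = 1).card + 2 * (D.filter fun d => 2 ≤ r d).card ≤ ∑ d ∈ D, r d := by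
    rw [card_filter, card_filter, mul_sum, ← sum_add_distrib]
    refine sum_le_sum fun d _ => ?_
    split_ifs <;> omega
  have h2 : (D.filter fun d => r d % 2 = 0).card + (D.filter fun d => r d % 2 = 1).card = D.card := by
    rw [card_filter, card_filter, ← sum_add_distrib, card_eq_sum_ones]
    refine sum_congr rfl fun d _ => ?_
    split_ifs <;> omega
  have h3 : ∀ k < 2, (D.filter fun d => r d = k).card ≤ (D.filter fun d => r d % 2 = k).card := by
    intro k hk
    rw [card_filter, card_filter]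
    refine sum_le_sum fun d _ => ?_
    split_ifs <;> omega
  have h4 : ∀ k < 2, (D.filter fun d => r d % 2 = k).card ≤
      (D.filter fun d => r d = k).card + (D.filter fun d => 2 ≤ r d).card := by
    intro k hk
    rw [card_filter, card_filter, card_filter, ← sum_add_distrib]
    refine sum_le_sum fun d _ => ?_
    split_ifs <;> omega
  have h1' : ((D.filter fun d => r d % 2 = 1).card : ℝ) + 2 * (D.filter fun d => 2 ≤ r d).card ≤
      ((∑ d ∈ D, r d : ℕ) : ℝ) := by exact_mod_cast h1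
  have h2' : ((D.filter fun d => r d % 2 = 0).card : ℝ) + (D.filter fun d => r d % 2 = 1).card = D.card := by
    exact_mod_cast h2
  have e0 := h 0 (by norm_num)
  have e1 := h 1 (by norm_num)
  have hpos : (0 : ℝ) ≤ (D.filter fun d => 2 ≤ r d).card := Nat.cast_nonneg _
  have h5 : ((D.filter fun d => 2 ≤ r d).card : ℝ) ≤ (θ - D.card / 2 + E) / 2 := by linarith
  refine ⟨h5, by linarith, fun k hk => ?_⟩
  have h3' : ((D.filter fun d => r d = k).card : ℝ) ≤ (D.filter fun d => r d % 2 = k).card := by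
    exact_mod_cast h3 k hk
  have h4' : ((D.filter fun d => r d % 2 = k).card : ℝ) ≤
      (D.filter fun d => r d = k).card + (D.filter fun d => 2 ≤ r d).card := by exact_mod_cast h4 k hk
  have h6 : ((D.filter fun d => r d % 2 = k).card : ℝ) ≤ D.card / 2 + E := by
    interval_cases k
    · linarith
    · linarith
  have h7 := h k hk
  rw [abs_le]
  constructor <;> linarith

/-- the limits -/
theorem limits {r : ℤ → ℕ} {C : ℝ} (hC : Parity r C)
    (h : ∀ ε : ℝ, 0 < ε → ∀ᶠ X : ℝ in atTop, ((∑ d ∈ twists X, r d : ℕ) : ℝ) ≤ (1 / 2 + ε) * (twists X).card) :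
    Tendsto (fun X : ℝ => ((∑ d ∈ twists X, r d : ℕ) : ℝ) / (twists X).card) atTop (𝓝 (1 / 2)) ∧
    ∀ k < 2, Tendsto (fun X : ℝ => (((twists X).filter fun d => r d = k).card : ℝ) / (twists X).card) atTop
      (𝓝 (1 / 2)) := by
  have key : ∀ ε : ℝ, 0 < ε → ∀ᶠ X : ℝ in atTop, 0 < ((twists X).card : ℝ) ∧
      |((∑ d ∈ twists X, r d : ℕ) : ℝ) - (twists X).card / 2| ≤ ε * (twists X).card ∧
      ∀ k < 2, |(((twists X).filter fun d => r d = k).card : ℝ) - (twists X).card / 2| ≤ 2 * ε * (twists X).card := by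
    intro ε hε
    filter_upwards [eventually_ge_atTop 4, h ε hε, sqrt_small C hε] with X h1 h2 h3
    obtain ⟨h4, h5, h6⟩ := count (twists X) r (hC X h1) h2
    refine ⟨lt_of_lt_of_le (by linarith) (twists_card (by linarith)), ?_, fun k hk => (h6 k hk).trans ?_⟩
    · rw [abs_le]
      constructor <;> linarith
    · linarith
  constructor
  · rw [Metric.tendsto_nhds]
    intro ε hε
    filter_upwards [key (ε / 2) (by linarith)] with X hX
    obtain ⟨h1, h2, -⟩ := hX
    rw [Real.dist_eq]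
    have e : ((∑ d ∈ twists X, r d : ℕ) : ℝ) / (twists X).card - 1 / 2 =
        (((∑ d ∈ twists X, r d : ℕ) : ℝ) - (twists X).card / 2) / (twists X).card := by
      field_simp
    rw [e, abs_div, abs_of_pos h1, div_lt_iff₀ h1]
    refine lt_of_le_of_lt h2 ?_
    have : 0 < ε * (twists X).card := by positivity
    linarith
  · intro k hk
    rw [Metric.tendsto_nhds]
    intro ε hε
    filter_upwards [key (ε / 4) (by linarith)] with X hX
    obtain ⟨h1, -, h2⟩ := hX
    rw [Real.dist_eq]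
    have e : (((twists X).filter fun d => r d = k).card : ℝ) / (twists X).card - 1 / 2 =
        ((((twists X).filter fun d => r d = k).card : ℝ) - (twists X).card / 2) / (twists X).card := by
      field_simp
    rw [e, abs_div, abs_of_pos h1, div_lt_iff₀ h1]
    refine lt_of_le_of_lt (h2 k hk) ?_
    have : 0 < ε * (twists X).card := by positivity
    linarith

end Pool.Agent.Q190.QTw
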