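import Pool.Agent.Q190.QTw.Conv

/-!
# Quadratic twists: the ratios of the product over a finite set of twists
-/

set_option autoImplicit false

namespace Pool.Agent.Q190.QTw

open Filter Topology Set Complex NumberField IsDedekindDomain
open Pool.Agent.Y19.QT Pool.Agent.Y705.QT
open Pool.Agent.Q18.P (upTo)
open Pool.Agent.Q190.RV.Quad (Bound Euler)
open Pool.Agent.Q190.RV (Ratios OfOrder Regular)

/-- the number of affine points of `y² = x³ + a x + b` over `𝔽_p` -/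
noncomputable def affine (a b : ℤ) (p : ℕ) : ℕ :=
  Nat.card {q : ZMod p × ZMod p // q.2 ^ 2 = q.1 ^ 3 + (a : ZMod p) * q.1 + (b : ZMod p)}

open Classical in
/-- `P_D(y)`, the product over the `d ∈ D` and the primes `p ≤ y` which divide neither `2 (4a³ + 27b²)` nor a member of
`D` of `#E_d(𝔽_p)/p`, `E_d : y² = x³ + a d² x + b d³` -/
noncomputable def product (a b : ℤ) (D : Finset ℤ) (y : ℝ) : ℝ :=
  ∏ d ∈ D, ∏ p ∈ (Finset.range (⌊y⌋₊ + 1)).filter (Good a b D),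
    ((affine (a * d ^ 2) (b * d ^ 3) p : ℝ) + 1) / p

theorem ap_cast (a b : ℤ) (p : ℕ) : ((ap a b p : ℤ) : ℝ) = (p : ℝ) - (affine a b p : ℝ) := by
  unfold ap affine
  rw [Int.cast_sub, Int.cast_natCast, Int.cast_natCast]

/-- `M` Euler products of degree two over the places of `ℚ` -/
theorem many {M : ℕ} {S : Finset Place} {t : Fin M → Place → ℝ} {F : Fin M → ℂ → ℂ} (hb : ∀ i, Bound S (t i))
    (hE : ∀ i, Euler S (t i) (F i))
    (hh : ∀ i, ∃ (η C : ℝ) (k : ℕ), 0 < η ∧ ∀ s : ℂ, 1 - η < s.re → DifferentiableAt ℂ (F i) s ∧ ‖F i s‖ ≤ C * (1 + ‖s‖) ^ k) :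
    ∃ e : Fin M → ℕ, (∀ i, analyticOrderAt (F i) 1 = e i) ∧
      Ratios 1 (fun s => ∏ i, F i s) (∑ i, e i) (fun y => ∏ i, Pool.Agent.Q190.RV.Quad.product S (t i) y) ∧
      (Pool.Agent.Q18.P.NoZeros 1 (fun s => ∏ i, F i s) ↔ ∀ i, ∀ s : ℂ, 1 < s.re → F i s ≠ 0) ∧
      ∀ ρ : ℝ, OfOrder (fun y => ∏ i, Pool.Agent.Q190.RV.Quad.product S (t i) y) ρ ↔
        ρ = (∑ i, e i : ℕ) ∧ Regular (fun y => ∏ i, Pool.Agent.Q190.RV.Quad.product S (t i) y) := by
  classical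
  set r : (i : Fin M) → Place → Fin 2 → ℂ := fun i => Pool.Agent.Q190.RV.Quad.al (t i) with hr
  have hp : ∀ i, Pool.Agent.Q18.P.Pure 1 S (r i) := fun i => Pool.Agent.Q190.RV.Quad.pure (hb i)
  have hP : Pool.Agent.Q18.P.Pure 1 S (Pool.Agent.Q18.P.cat (N := fun _ : Fin M => 2) r) :=
    Pool.Agent.Q18.P.cat_pure hp
  have hHi : ∀ i, Pool.Agent.Q190.RV.Holo 1 S (r i) (F i) := fun i =>
    ⟨hh i, fun s hs => Pool.Agent.Q190.RV.Quad.euler (hb i) (hE i) hs⟩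
  have hH : Pool.Agent.Q190.RV.Holo 1 S (Pool.Agent.Q18.P.cat (N := fun _ : Fin M => 2) r) (fun s => ∏ i, F i s) :=
    Pool.Agent.Q190.RV.Holo.cat hHi
  obtain ⟨e, he, hm⟩ := Pool.Agent.Q190.RV.orders Pool.Agent.Q190.RV.Quad.one_c (N := fun _ : Fin M => 2)
    (fun i => (hp i).le) hHi
  have e1 : (fun y => ∏ i, Pool.Agent.Q190.RV.Quad.product S (t i) y) =
      Pool.Agent.Q18.P.product 1 S (Pool.Agent.Q18.P.cat (N := fun _ : Fin M => 2) r) := by
    funext y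
    rw [Pool.Agent.Q18.P.product_cat]
    refine Finset.prod_congr rfl fun i _ => ?_
    rw [Pool.Agent.Q190.RV.Quad.product_eq (hb i)]
  have hz : Pool.Agent.Q18.P.NoZeros 1 (fun s => ∏ i, F i s) ↔ ∀ i, ∀ s : ℂ, 1 < s.re → F i s ≠ 0 :=
    Pool.Agent.Q18.P.noZeros_prod
  refine ⟨e, fun i => ?_, ?_, hz, ?_⟩
  · have := he i
    rwa [Complex.ofReal_one] at this
  · rw [e1]
    exact Pool.Agent.Q190.RV.ratios Pool.Agent.Q190.RV.Quad.one_c hP.le hH hm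
  · rw [e1]
    exact (Pool.Agent.Q190.RV.order_law Pool.Agent.Q190.RV.Quad.one_c hP.le hH hm).1

/-- **A finite set of twists.** -/
theorem twist_laws {a b : ℤ} (hab : 4 * a ^ 3 + 27 * b ^ 2 ≠ 0) (hT : HasTwists a b) {F : ℤ → ℂ → ℂ}
    (hF : ∀ d : ℤ, Squarefree d → IsLFun (a * d ^ 2) (b * d ^ 3) (F d)) (D : Finset ℤ) (hD : ∀ d ∈ D, Squarefree d) :
    ∃ m : ℕ, (∀ r : ℤ → ℕ, (∀ d ∈ D, analyticOrderAt (F d) 1 = r d) → m = ∑ d ∈ D, r d) ∧
      (∀ d ∈ D, analyticOrderAt (F d) 1 ≠ ⊤) ∧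
      (∀ l Q : ℝ, 1 < l → (∀ᶠ y : ℝ in atTop, product a b D (y ^ l) ≤ Q * product a b D y) →
        (∀ d ∈ D, ∀ s : ℂ, 1 < s.re → F d s ≠ 0) ∧ l ^ m ≤ Q) ∧
      (∀ l Q : ℝ, 1 < l → Q < l ^ m → ∃ᶠ y : ℝ in atTop, Q * product a b D y < product a b D (y ^ l)) ∧
      ∀ ρ : ℝ, OfOrder (product a b D) ρ ↔ ρ = m ∧ Regular (product a b D) := by
  classical
  obtain ⟨S, hS⟩ := exists_S hab hD
  set e := D.equivFin with he
  set dd : Fin D.card → ℤ := fun i => (e.symm i).1 with hdd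
  have hmem : ∀ i, dd i ∈ D := fun i => (e.symm i).2
  have hsum : ∀ {β : Type} [CommMonoid β] (f : ℤ → β), ∏ i, f (dd i) = ∏ d ∈ D, f d := by
    intro β _ f
    rw [← Finset.prod_coe_sort D f, ← e.symm.prod_comp (fun x : {x // x ∈ D} => f x.1)]
  have hsum' : ∀ f : ℤ → ℕ, ∑ i, f (dd i) = ∑ d ∈ D, f d := by
    intro f
    rw [← Finset.sum_coe_sort D f, ← e.symm.sum_comp (fun x : {x // x ∈ D} => f x.1)]
  obtain ⟨ex, h1, h2, h3, h4⟩ := many (t := fun i => tr a b (dd i))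
    (F := fun i s => F (dd i) s * corr a b D (dd i) s) (fun i => bound hS (dd i))
    (fun i => euler hab hD hS (hmem i) (hF _ (hD _ (hmem i))))
    (fun i => holo hab hT (hD _ (hmem i)) (hF _ (hD _ (hmem i))))
  have hord : ∀ i, analyticOrderAt (F (dd i)) 1 = ex i := by
    intro i
    rw [← h1 i]
    exact (order_corr (hF _ (hD _ (hmem i))).1).symm
  have hprod : (fun y => ∏ i, Pool.Agent.Q190.RV.Quad.product S (tr a b (dd i)) y) = product a b D := by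
    funext y
    rw [hsum (fun d => Pool.Agent.Q190.RV.Quad.product S (tr a b d) y)]
    unfold product
    refine Finset.prod_congr rfl fun d _ => ?_
    unfold Pool.Agent.Q190.RV.Quad.product
    rw [← finprod_eq (fun p hp => hp.1) hS
      (fun p => ((affine (a * d ^ 2) (b * d ^ 3) p : ℝ) + 1) / p) y]
    refine finprod_mem_congr rfl fun v _ => ?_
    unfold tr
    rw [ap_cast]
    congr 1
    ring
  rw [hprod] at h2 h4
  have hz : Pool.Agent.Q18.P.NoZeros 1 (fun s => ∏ i, (F (dd i) s * corr a b D (dd i) s)) →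
      ∀ d ∈ D, ∀ s : ℂ, 1 < s.re → F d s ≠ 0 := by
    intro hnz d hd s hs h5
    have h6 := h3.1 hnz (e ⟨d, hd⟩) s hs
    have h7 : dd (e ⟨d, hd⟩) = d := by
      simp only [hdd, Equiv.symm_apply_apply]
    rw [h7, h5, zero_mul] at h6
    exact h6 rfl
  refine ⟨∑ i, ex i, fun r hr => ?_, fun d hd => ?_, fun l Q hl hQ => ?_, fun l Q hl hQ => ?_, h4⟩
  · rw [← hsum' r]
    refine Finset.sum_congr rfl fun i _ => ?_
    have h5 := hr (dd i) (hmem i)
    rw [hord i] at h5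
    exact_mod_cast h5
  · have h7 : dd (e ⟨d, hd⟩) = d := by
      simp only [hdd, Equiv.symm_apply_apply]
    have h8 := hord (e ⟨d, hd⟩)
    rw [h7] at h8
    rw [h8]
    exact ENat.natCast_ne_top _
  · obtain ⟨h5, h6⟩ := h2.upper l Q hl hQ
    exact ⟨hz h5, h6⟩
  · exact h2.freq hl hQ

end Pool.Agent.Q190.QTw
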